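import Pool.Agent.Y16.AF.StmB
import Pool.Agent.Y828.AF.Z3

/-! Sum of `|n|^-3` over the nonzero integer points of a box, limit (job AF2-Z3L of project AF). -/

set_option autoImplicit false

open MeasureTheory Set Filter
open scoped Topology

namespace Pool.Agent.Y893.AF

open Pool.Agent.Y828.AF

/-! ### The error terms -/

/-- The error at an integer point. -/
noncomputable def er (n : Fin 3 → ℤ) : ℝ :=
  if n = 0 then 0 else fn (pt n) - ∫ x in Q n, fn x

lemma gw3_summable : Summable (fun n : Fin 3 → ℤ => ∏ j, gw (n j)) := by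
  classical
  refine summable_of_sum_le (c := (∑' m, gw m) ^ 3)
    (fun n => Finset.prod_nonneg (fun j _ => (gw_pos _).le)) ?_
  intro u
  set v : Finset ℤ := Finset.univ.biUnion (fun j : Fin 3 => u.image (fun n => n j)) with hv
  calc ∑ n ∈ u, ∏ j, gw (n j)
      ≤ ∑ n ∈ Fintype.piFinset (fun _ : Fin 3 => v), ∏ j, gw (n j) := by
        apply Finset.sum_le_sum_of_subset_of_nonneg
        · intro n hn
          rw [Fintype.mem_piFinset]
          intro j
          rw [hv, Finset.mem_biUnion]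
          exact ⟨j, Finset.mem_univ _, Finset.mem_image_of_mem (fun n => n j) hn⟩
        · intro n _ _
          exact Finset.prod_nonneg (fun j _ => (gw_pos _).le)
    _ = (∑ m ∈ v, gw m) ^ 3 := by
        rw [← Finset.prod_univ_sum, Finset.prod_const, Finset.card_univ, Fintype.card_fin]
    _ ≤ (∑' m, gw m) ^ 3 := by
        apply pow_le_pow_left₀ (Finset.sum_nonneg (fun m _ => (gw_pos m).le))
        exact gw_summable.sum_le_tsum _ (fun m _ => (gw_pos m).le)

lemma er_le (n : Fin 3 → ℤ) : ‖er n‖ ≤ 189 * 16 * ∏ j, gw (n j) := by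
  have h0 : 0 ≤ ∏ j, gw (n j) := Finset.prod_nonneg (fun j _ => (gw_pos _).le)
  unfold er
  split_ifs with h
  · rw [norm_zero]
    positivity
  · rw [Real.norm_eq_abs]
    have h1 := Q_cmp h
    have h2 := err_term h
    calc |fn (pt n) - ∫ x in Q n, fn x| ≤ 189 / ‖pt n‖ ^ 4 := h1
      _ = 189 * (1 / ‖pt n‖ ^ 4) := by ring
      _ ≤ 189 * (16 * ∏ j, gw (n j)) := mul_le_mul_of_nonneg_left h2 (by norm_num)
      _ = 189 * 16 * ∏ j, gw (n j) := by ring

lemma er_summable : Summable er :=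
  Summable.of_norm_bounded (gw3_summable.mul_left _) er_le

/-- The integer points of the box. -/
noncomputable def B (L : ℕ) : Finset (Fin 3 → ℤ) :=
  (Finset.univ : Finset (Pool.Agent.Y16.AF.Sp (L + 2))).image nn

lemma mem_B (L : ℕ) (n : Fin 3 → ℤ) :
    n ∈ B L ↔ ∀ j, -((L + 2 : ℕ) : ℤ) < n j * 2 ∧ n j * 2 ≤ ((L + 2 : ℕ) : ℤ) := by
  unfold B
  rw [Finset.mem_image]
  constructor
  · rintro ⟨k, _, rfl⟩ j
    exact ZMod.valMinAbs_mem_Ioc (k j)
  · intro h
    refine ⟨fun j => (n j : ZMod (L + 2)), Finset.mem_univ _, ?_⟩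
    funext j
    show ((n j : ZMod (L + 2))).valMinAbs = n j
    rw [ZMod.valMinAbs_spec]
    exact ⟨rfl, h j⟩

lemma B_tendsto : Tendsto B atTop atTop := by
  apply tendsto_atTop_finset_of_monotone
  · intro a b hab n hn
    rw [mem_B] at hn ⊢
    intro j
    have := hn j
    have h2 : ((a + 2 : ℕ) : ℤ) ≤ ((b + 2 : ℕ) : ℤ) := by exact_mod_cast (by omega : a + 2 ≤ b + 2)
    constructor <;> omega
  · intro n
    refine ⟨2 * (∑ j, (n j).natAbs), ?_⟩
    rw [mem_B]
    intro j
    have h1 : (n j).natAbs ≤ ∑ j, (n j).natAbs :=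
      Finset.single_le_sum (f := fun j => (n j).natAbs) (fun _ _ => Nat.zero_le _)
        (Finset.mem_univ j)
    constructor <;> omega

lemma er_sum (L : ℕ) : ∑ k ∈ S (L + 2), er (nn k) = ∑ n ∈ B L, er n := by
  unfold B
  rw [Finset.sum_image (fun a _ b _ h => nn_inj h)]
  apply Finset.sum_subset (Finset.filter_subset _ _)
  intro k _ hk
  have hk0 : k = 0 := by
    by_contra h
    exact hk (Finset.mem_filter.2 ⟨Finset.mem_univ _, h⟩)
  have : nn k = 0 := by
    rw [hk0]
    funext j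
    exact ZMod.valMinAbs_zero _
  rw [this]
  unfold er
  rw [if_pos rfl]

lemma er_tendsto : Tendsto (fun L : ℕ => ∑ k ∈ S (L + 2), er (nn k)) atTop (𝓝 (∑' n, er n)) := by
  have h1 : Tendsto (fun L : ℕ => ∑ n ∈ B L, er n) atTop (𝓝 (∑' n, er n)) :=
    er_summable.hasSum.comp B_tendsto
  exact h1.congr (fun L => (er_sum L).symm)

/-! ### The union of the cubes -/

lemma Q_iff (n : Fin 3 → ℤ) (x : W) : x ∈ Q n ↔ ∀ j, ⌊x j + 1 / 2⌋ = n j := by
  constructor
  · intro h j
    rw [Int.floor_eq_iff]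
    have := h j
    constructor <;> linarith [this.1, this.2]
  · intro h j
    have h1 := Int.floor_eq_iff.1 (h j)
    constructor <;> linarith [h1.1, h1.2]

lemma Q0_norm {x : W} (hx : x ∈ Q 0) : ‖x‖ < 1 := by
  have h3 : ‖x‖ ^ 2 ≤ 3 / 4 := by
    rw [norm_sq_eq]
    have : ∀ j, x j ^ 2 ≤ 1 / 4 := by
      intro j
      have h4 := hx j
      simp only [Pi.zero_apply, Int.cast_zero] at h4
      nlinarith [h4.1, h4.2]
    rw [Fin.sum_univ_three]
    linarith [this 0, this 1, this 2]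
  nlinarith [norm_nonneg x]

/-- The union of the cubes. -/
def U (M : ℕ) [NeZero M] : Set W := ⋃ k ∈ S M, Q (nn k)

lemma mem_U (M : ℕ) [NeZero M] (x : W) :
    x ∈ U M ↔ (∀ j, -(M : ℤ) < ⌊x j + 1 / 2⌋ * 2 ∧ ⌊x j + 1 / 2⌋ * 2 ≤ M) ∧ x ∉ Q 0 := by
  unfold U
  simp only [mem_iUnion]
  constructor
  · rintro ⟨k, hk, hx⟩
    constructor
    · intro j
      rw [(Q_iff _ x).1 hx j]
      exact ZMod.valMinAbs_mem_Ioc (k j)
    · intro h0
      exact Set.disjoint_left.1 (Q_disj (nn_ne (Finset.mem_filter.1 hk).2)) hx h0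
  · rintro ⟨h1, h2⟩
    set m : Fin 3 → ℤ := fun j => ⌊x j + 1 / 2⌋ with hm
    have hxm : x ∈ Q m := (Q_iff _ _).2 (fun j => rfl)
    set k : Pool.Agent.Y16.AF.Sp M := fun j => (m j : ZMod M) with hk
    have hkm : nn k = m := by
      funext j
      show (k j).valMinAbs = m j
      rw [ZMod.valMinAbs_spec]
      exact ⟨rfl, h1 j⟩
    refine ⟨k, ?_, by rw [hkm]; exact hxm⟩
    refine Finset.mem_filter.2 ⟨Finset.mem_univ _, ?_⟩
    intro hk0
    have hm0 : m = 0 := by
      rw [← hkm, hk0]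
      funext j
      exact ZMod.valMinAbs_zero _
    rw [hm0] at hxm
    exact h2 hxm

lemma U_meas (M : ℕ) [NeZero M] : MeasurableSet (U M) :=
  Finset.measurableSet_biUnion _ (fun _ _ => Q_meas _)

/-- The central part. -/
def E0 : Set W := {x | ‖x‖ < 1} ∩ (Q 0)ᶜ

/-- The outer part. -/
def D (M : ℕ) [NeZero M] : Set W := U M ∩ {x | (M : ℝ) / 4 < ‖x‖}

lemma E0_meas : MeasurableSet E0 :=
  (measurableSet_lt measurable_norm measurable_const).inter (Q_meas 0).compl

lemma D_meas (M : ℕ) [NeZero M] : MeasurableSet (D M) :=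
  (U_meas M).inter (measurableSet_lt measurable_const measurable_norm)

lemma U_split (M : ℕ) [NeZero M] (hM : 8 ≤ M) : U M = (E0 ∪ Ann 1 ((M : ℝ) / 4)) ∪ D M := by
  have hM' : (8 : ℝ) ≤ M := by exact_mod_cast hM
  apply Set.Subset.antisymm
  · intro x hx
    by_cases h1 : (M : ℝ) / 4 < ‖x‖
    · exact Or.inr ⟨hx, h1⟩
    · left
      push Not at h1
      by_cases h2 : 1 ≤ ‖x‖
      · exact Or.inr ⟨h2, h1⟩
      · push Not at h2
        exact Or.inl ⟨h2, ((mem_U M x).1 hx).2⟩
  · rintro x ((hx | hx) | hx)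
    · rw [mem_U]
      refine ⟨?_, hx.2⟩
      intro j
      have h1 := (coord_le x j).trans (le_of_lt hx.1)
      rw [abs_le] at h1
      have h2 := Int.floor_le (x j + 1 / 2)
      have h3 := Int.lt_floor_add_one (x j + 1 / 2)
      constructor
      · have : (-(M : ℝ)) < (⌊x j + 1 / 2⌋ : ℝ) * 2 := by linarith [h1.1]
        exact_mod_cast this
      · have : (⌊x j + 1 / 2⌋ : ℝ) * 2 ≤ M := by linarith [h1.2]
        exact_mod_cast this
    · apply U_sup M
      refine ⟨hx.1, hx.2.trans ?_⟩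
      linarith
    · exact hx.1

lemma U_fn_int (M : ℕ) [NeZero M] (hM : 8 ≤ M) : IntegrableOn fn (U M) :=
  (Ann_fn_int (by norm_num)).mono_set (U_sub M (by omega))

lemma int_U (M : ℕ) [NeZero M] (hM : 8 ≤ M) :
    ∫ x in U M, fn x = (∫ x in E0, fn x) + 4 * Real.pi * Real.log ((M : ℝ) / 4)
      + ∫ x in D M, fn x := by
  have hM' : (8 : ℝ) ≤ M := by exact_mod_cast hM
  have hi := U_fn_int M hM
  rw [U_split M hM] at hi ⊢
  have hi1 := hi.left_of_union
  have hi2 := hi.right_of_union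
  rw [setIntegral_union _ (D_meas M) hi1 hi2, setIntegral_union _ (Ann_meas _ _)
    hi1.left_of_union hi1.right_of_union, Ann_int (by norm_num) (by linarith), div_one]
  · rw [Set.disjoint_left]
    intro x hx hx2
    have := hx2.1
    have h1 : ‖x‖ < 1 := hx.1
    linarith
  · rw [Set.disjoint_left]
    rintro x (hx | hx) hx2
    · have h1 : ‖x‖ < 1 := hx.1
      have h2 : (M : ℝ) / 4 < ‖x‖ := hx2.2
      linarith
    · have h1 : ‖x‖ ≤ (M : ℝ) / 4 := hx.2
      have h2 : (M : ℝ) / 4 < ‖x‖ := hx2.2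
      linarith

/-! ### Scaling -/

open Classical in
/-- The rescaled function. -/
noncomputable def g (M : ℕ) [NeZero M] (y : W) : ℝ := if (M : ℝ) • y ∈ D M then fn y else 0

open Classical in
/-- The limit function. -/
noncomputable def f (y : W) : ℝ := if (∀ j, |y j| < 1 / 2) ∧ 1 / 4 < ‖y‖ then fn y else 0

lemma int_D (M : ℕ) [NeZero M] : ∫ x in D M, fn x = ∫ y, g M y := by
  have hM0 : (0 : ℝ) < M := by
    have := Nat.pos_of_ne_zero (NeZero.ne M)
    exact_mod_cast this
  rw [← integral_indicator (D_meas M)]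
  have h1 := Measure.integral_comp_smul (volume : Measure W) ((D M).indicator fn) (M : ℝ)
  have hd : Module.finrank ℝ W = 3 := by simp
  rw [hd, abs_of_pos (by positivity), smul_eq_mul] at h1
  have h2 : ∫ x, (D M).indicator fn x = (M : ℝ) ^ 3 * ∫ x, (D M).indicator fn ((M : ℝ) • x) := by
    rw [h1]
    field_simp
  rw [h2, ← integral_const_mul]
  congr 1
  funext y
  unfold g
  by_cases h : (M : ℝ) • y ∈ D M
  · rw [indicator_of_mem h, if_pos h]
    unfold fn
    rw [norm_smul, Real.norm_of_nonneg hM0.le, mul_pow, mul_one_div,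
      ← div_div, div_self (by positivity)]
  · rw [indicator_of_notMem h, if_neg h, mul_zero]

lemma g_meas (M : ℕ) [NeZero M] : Measurable (g M) := by
  unfold g
  apply Measurable.ite _ fn_meas measurable_const
  exact (D_meas M).preimage (measurable_const_smul (M : ℝ))

lemma g_bound (M : ℕ) [NeZero M] (hM : 2 ≤ M) (y : W) :
    ‖g M y‖ ≤ (Ann (1 / 4) 2).indicator fn y := by
  have hM0 : (0 : ℝ) < M := by
    have := Nat.pos_of_ne_zero (NeZero.ne M)
    exact_mod_cast this
  unfold g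
  by_cases h : (M : ℝ) • y ∈ D M
  · rw [if_pos h, indicator_of_mem, Real.norm_of_nonneg (fn_nonneg y)]
    have h1 := h.2
    have h2 := (U_sub M hM h.1).2
    have h3 : (M : ℝ) / 4 < ‖(M : ℝ) • y‖ := h1
    rw [norm_smul, Real.norm_of_nonneg hM0.le] at h2 h3
    constructor
    · by_contra h4
      push Not at h4
      have := mul_lt_mul_of_pos_left h4 hM0
      linarith
    · have h5 : (M : ℝ) * ‖y‖ ≤ M * 2 := by linarith
      exact le_of_mul_le_mul_left h5 hM0
  · rw [if_neg h, norm_zero]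
    exact indicator_nonneg (fun x _ => fn_nonneg x) y

lemma ae_ne (j : Fin 3) (c : ℝ) : ∀ᵐ y : W, y j ≠ c := by
  have h1 : ∀ᵐ y : Fin 3 → ℝ, y j ≠ c := by
    rw [volume_pi]
    exact Measure.ae_eval_ne (fun _ : Fin 3 => (volume : Measure ℝ)) j c
  have h2 := (EuclideanSpace.volume_preserving_symm_measurableEquiv_toLp
    (Fin 3)).quasiMeasurePreserving.ae h1
  exact h2

lemma tendsto_mul (c : ℝ) (hc : 0 < c) :
    ∀ᶠ L : ℕ in atTop, 1 ≤ ((L + 2 : ℕ) : ℝ) * c := by
  have h1 : Tendsto (fun L : ℕ => ((L + 2 : ℕ) : ℝ) * c) atTop atTop := by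
    apply Tendsto.atTop_mul_const hc
    exact tendsto_natCast_atTop_atTop.comp (tendsto_add_atTop_nat 2)
  exact h1.eventually_ge_atTop 1

lemma g_lim : ∀ᵐ y : W, Tendsto (fun L : ℕ => g (L + 2) y) atTop (𝓝 (f y)) := by
  have h1 : ∀ᵐ y : W, ∀ j, y j ≠ 1 / 2 := ae_all_iff.2 (fun j => ae_ne j _)
  have h2 : ∀ᵐ y : W, ∀ j, y j ≠ -(1 / 2) := ae_all_iff.2 (fun j => ae_ne j _)
  filter_upwards [h1, h2] with y hy1 hy2
  apply Tendsto.congr' _ tendsto_const_nhds
  by_cases h4 : 1 / 4 < ‖y‖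
  · by_cases h5 : ∀ j, |y j| < 1 / 2
    · have e1 : ∀ᶠ L : ℕ in atTop, ∀ j : Fin 3, 1 ≤ ((L + 2 : ℕ) : ℝ) * (1 - 2 * |y j|) := by
        rw [eventually_all]
        intro j
        apply tendsto_mul
        linarith [h5 j]
      filter_upwards [e1, eventually_ge_atTop 2] with L hL hL2
      have hM0 : (4 : ℝ) ≤ ((L + 2 : ℕ) : ℝ) := by
        exact_mod_cast (by omega : 4 ≤ L + 2)
      set M : ℝ := ((L + 2 : ℕ) : ℝ) with hM
      have hn : M / 4 < ‖M • y‖ := by
        rw [norm_smul, Real.norm_of_nonneg (by linarith)]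
        have := mul_lt_mul_of_pos_left h4 (show 0 < M by linarith)
        linarith
      unfold f g
      rw [if_pos ⟨h5, h4⟩, if_pos]
      refine ⟨?_, hn⟩
      rw [mem_U]
      constructor
      · intro j
        have e2 : (M • y) j = M * y j := rfl
        have h6 := hL j
        have h7 := abs_le.1 (le_refl |y j|)
        have h8 := Int.floor_le ((M • y) j + 1 / 2)
        have h9 := Int.lt_floor_add_one ((M • y) j + 1 / 2)
        have h10 : M * y j ≤ M * |y j| := mul_le_mul_of_nonneg_left h7.2 (by linarith)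
        have h11 : M * (-|y j|) ≤ M * y j := mul_le_mul_of_nonneg_left h7.1 (by linarith)
        rw [e2] at h8 h9 ⊢
        generalize ⌊M * y j + 1 / 2⌋ = t at h8 h9 ⊢
        constructor
        · have h14 : (-M) < (t : ℝ) * 2 := by linarith
          rw [hM] at h14
          exact_mod_cast h14
        · have h14 : (t : ℝ) * 2 ≤ M := by linarith
          rw [hM] at h14
          exact_mod_cast h14
      · intro h0
        have := Q0_norm h0
        linarith
    · push Not at h5
      obtain ⟨j, hj⟩ := h5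
      have hj' : 1 / 2 < |y j| := by
        rcases lt_or_eq_of_le hj with h | h
        · exact h
        · exfalso
          rcases abs_eq (show (0 : ℝ) ≤ 1 / 2 by norm_num) |>.1 h.symm with h | h
          · exact hy1 j h
          · exact hy2 j h
      filter_upwards [tendsto_mul (2 * |y j| - 1) (by linarith)] with L hL
      set M : ℝ := ((L + 2 : ℕ) : ℝ) with hM
      unfold f g
      rw [if_neg (fun h => absurd (h.1 j) (by linarith)), if_neg]
      rintro ⟨h, _⟩
      rw [mem_U] at h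
      have h6 := h.1 j
      have e2 : ((((L + 2 : ℕ) : ℝ)) • y) j = M * y j := rfl
      rw [e2] at h6
      have h8 := Int.floor_le (M * y j + 1 / 2)
      have h9 := Int.lt_floor_add_one (M * y j + 1 / 2)
      generalize ⌊M * y j + 1 / 2⌋ = t at h6 h8 h9
      have h12 : (-M) < (t : ℝ) * 2 := by
        rw [hM]
        exact_mod_cast h6.1
      have h13 : (t : ℝ) * 2 ≤ M := by
        rw [hM]
        exact_mod_cast h6.2
      rcases le_or_gt 0 (y j) with h7 | h7
      · rw [abs_of_nonneg h7] at hL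
        linarith
      · rw [abs_of_neg h7] at hL
        linarith
  · apply Eventually.of_forall
    intro L
    have hM0 : (0 : ℝ) < ((L + 2 : ℕ) : ℝ) := by
      exact_mod_cast (by omega : 0 < L + 2)
    show f y = g (L + 2) y
    unfold f g
    rw [if_neg (fun h => h4 h.2), if_neg]
    rintro ⟨_, h⟩
    have h3 : ((L + 2 : ℕ) : ℝ) / 4 < ‖((L + 2 : ℕ) : ℝ) • y‖ := h
    rw [norm_smul, Real.norm_of_nonneg hM0.le] at h3
    apply h4
    by_contra h6
    push Not at h6
    have := mul_le_mul_of_nonneg_left h6 hM0.le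
    linarith

lemma int_D_tendsto : Tendsto (fun L : ℕ => ∫ x in D (L + 2), fn x) atTop (𝓝 (∫ y, f y)) := by
  have h1 : Tendsto (fun L : ℕ => ∫ y, g (L + 2) y) atTop (𝓝 (∫ y, f y)) := by
    apply tendsto_integral_of_dominated_convergence ((Ann (1 / 4) 2).indicator fn)
    · intro L
      exact (g_meas (L + 2)).aestronglyMeasurable
    · exact (Ann_fn_int (by norm_num)).integrable_indicator (Ann_meas _ _)
    · intro L
      exact ae_of_all _ (fun y => g_bound (L + 2) (by omega) y)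
    · exact g_lim
  exact h1.congr (fun L => (int_D (L + 2)).symm)

/-- Job AF2-Z3L. -/
theorem af_z3l : Pool.Agent.Y16.AF.S_Z3L := by
  refine ⟨(∑' n, er n) + ((∫ x in E0, fn x) - 4 * Real.pi * Real.log 4 + ∫ y, f y), ?_⟩
  apply (er_tendsto.add (tendsto_const_nhds.add int_D_tendsto)).congr'
  filter_upwards [eventually_ge_atTop 6] with L hL
  have h1 := int_U (L + 2) (by omega)
  have h2 : ∑ k ∈ S (L + 2), ∫ x in Q (nn k), fn x = ∫ x in U (L + 2), fn x := sum_int (L + 2)
  have h3 : (∑ k ∈ Pool.Agent.Y16.AF.nz (L + 2),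
      1 / Real.sqrt (∑ j, (Pool.Agent.Y16.AF.ir k j : ℝ) ^ 2) ^ 3)
      = ∑ k ∈ S (L + 2), fn (pt (nn k)) := by
    apply Finset.sum_congr rfl
    intro k _
    unfold fn
    rw [EuclideanSpace.norm_eq]
    congr 3
    apply Finset.sum_congr rfl
    intro j _
    rw [Real.norm_eq_abs, sq_abs]
    rfl
  have h4 : ∑ k ∈ S (L + 2), er (nn k)
      = (∑ k ∈ S (L + 2), fn (pt (nn k))) - ∑ k ∈ S (L + 2), ∫ x in Q (nn k), fn x := by
    rw [← Finset.sum_sub_distrib]
    apply Finset.sum_congr rfl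
    intro k hk
    unfold er
    rw [if_neg (nn_ne (Finset.mem_filter.1 hk).2)]
  have h5 : Real.log (((L + 2 : ℕ) : ℝ) / 4) = Real.log ((L + 2 : ℕ) : ℝ) - Real.log 4 := by
    rw [Real.log_div _ (by norm_num)]
    have : (0 : ℝ) < ((L + 2 : ℕ) : ℝ) := by exact_mod_cast (by omega : 0 < L + 2)
    exact this.ne'
  rw [h3, h4, h2, h1, h5]
  ring

end Pool.Agent.Y893.AF
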